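import Mathlib
import Pool.Agent.Y734.I.Base
import Pool.Agent.Y734.I.Trd0
import Pool.Agent.Y734.I.Trd1
import Pool.Agent.Y734.I.Trd
import Pool.Agent.Y734.I.NV.Red
import Pool.Agent.Y734.I.Stms

/-!
# Project Y734/I, job STEP: valuation rings and transcendence degrees (helper664)
-/

set_option autoImplicit false

namespace Pool.Agent.Y734.I.STEP

attribute [-instance] DivisionRing.toRatAlgebra

open MvPolynomial Pool.Agent.Y734.I

/-- a valuation ring which dominates the localisation at a prime ideal -/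
lemma exists_val {K : Type} [Field K] (A : Subring K) (Q : Ideal A) [hQ : Q.IsPrime] :
    ∃ B : ValuationSubring K, (∀ a ∈ A, a ∈ B) ∧ (∀ a ∈ Q, (a : K) ∈ B.nonunits) ∧
      ∀ a : A, a ∉ Q → (a : K)⁻¹ ∈ B := by
  obtain ⟨V, hV⟩ := (LocalSubring.ofPrime A Q).exists_le_valuationSubring
  refine ⟨V, fun a ha => hV.1 (LocalSubring.le_ofPrime A Q ha), ?_, ?_⟩
  · have h : A.subtype '' Q ⊆ V.nonunits := by
      rw [← V.image_maximalIdeal]
      refine .trans ?_ (Set.image_mono <| ((IsLocalRing.local_hom_TFAE _).out 0 2).mp hV.2)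
      rw [← IsLocalization.AtPrime.map_eq_maximalIdeal Q, Ideal.map_map]
      rintro _ ⟨a, ha, rfl⟩
      exact ⟨_, Ideal.mem_map_of_mem _ ha, rfl⟩
    intro a ha
    exact h ⟨a, ha, rfl⟩
  · intro a ha
    have h1 : IsUnit (algebraMap A (LocalSubring.ofPrime A Q).toSubring a) :=
      IsLocalization.map_units (M := Q.primeCompl) _ ⟨a, ha⟩
    obtain ⟨b, hb⟩ := h1.exists_right_inv
    have h2 : (a : K) * (b : K) = 1 := congrArg Subtype.val hb
    have h3 : (a : K)⁻¹ = (b : K) := (eq_inv_of_mul_eq_one_right h2).symm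
    rw [h3]
    exact hV.1 b.2

/-- the transcendence degree of a set of quotients of elements of a subalgebra -/
lemma trd_le_of_sub {κ : Type} [Field κ] [Algebra ℚ κ] {s : Set κ} (A : Subalgebra ℚ κ)
    (h : ∀ y ∈ s, ∃ a ∈ A, ∃ b ∈ A, y = a / b) : trd s ≤ Algebra.trdeg ℚ A := by
  have : FaithfulSMul ℚ A :=
    (faithfulSMul_iff_algebraMap_injective ℚ A).2 (algebraMap ℚ A).injective
  obtain ⟨t, ht⟩ := exists_isTranscendenceBasis ℚ A
  rw [← ht.cardinalMk_eq_trdeg]
  have halg := ht.isAlgebraic
  let T : Set κ := (fun x : A => (x : κ)) '' t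
  have hT : Cardinal.mk T ≤ Cardinal.mk t := Cardinal.mk_image_le
  have key : ∀ a ∈ A, IsAlgebraic (IntermediateField.adjoin ℚ T) a := by
    intro a ha
    have h1 : IsAlgebraic (Algebra.adjoin ℚ (Set.range ((↑) : t → A))) (⟨a, ha⟩ : A) :=
      halg.isAlgebraic _
    have hmem : ∀ x : Algebra.adjoin ℚ (Set.range ((↑) : t → A)),
        ((x : A) : κ) ∈ IntermediateField.adjoin ℚ T := by
      intro x
      have h2 : (x : A) ∈ (IntermediateField.adjoin ℚ T).toSubalgebra.comap A.val := by
        have h3 : Algebra.adjoin ℚ (Set.range ((↑) : t → A)) ≤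
            (IntermediateField.adjoin ℚ T).toSubalgebra.comap A.val := by
          rw [Algebra.adjoin_le_iff]
          rintro _ ⟨y, rfl⟩
          exact IntermediateField.subset_adjoin ℚ T ⟨y, y.2, rfl⟩
        exact h3 x.2
      exact h2
    let f : Algebra.adjoin ℚ (Set.range ((↑) : t → A)) →+* IntermediateField.adjoin ℚ T :=
      RingHom.codRestrict (A.val.toRingHom.comp
        (Algebra.adjoin ℚ (Set.range ((↑) : t → A))).val.toRingHom)
        (IntermediateField.adjoin ℚ T) hmem
    have hf : Function.Injective f := by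
      intro x y hxy
      have h4 : ((x : A) : κ) = ((y : A) : κ) :=
        congrArg (fun z : IntermediateField.adjoin ℚ T => (z : κ)) hxy
      exact Subtype.ext (Subtype.ext h4)
    exact h1.ringHom_of_comp_eq f A.val.toRingHom hf rfl
  have h5 : trd s ≤ trd T := by
    apply trd_le_of_alg
    intro y hy
    obtain ⟨a, ha, b, hb, rfl⟩ := h y hy
    rw [div_eq_mul_inv]
    exact (key a ha).mul (key b hb).inv
  exact h5.trans ((trd_le_card T).trans hT)

/-- the transcendence degree of a quotient which is a subring of the field -/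
lemma sub_le_trd {κ' : Type} [Field κ'] [Algebra ℚ κ'] {s : Set κ'} {B : Type} [CommRing B]
    [Algebra ℚ B] (f : B →+* κ') (hf : Function.Injective f)
    (h : ∀ b, f b ∈ IntermediateField.adjoin ℚ s) : Algebra.trdeg ℚ B ≤ trd s := by
  rw [trd_eq]
  let g : B →+* IntermediateField.adjoin ℚ s := RingHom.codRestrict f _ h
  have hc : ∀ q : ℚ, g (algebraMap ℚ B q) = algebraMap ℚ (IntermediateField.adjoin ℚ s) q := by
    intro q
    have : g.comp (algebraMap ℚ B) = algebraMap ℚ (IntermediateField.adjoin ℚ s) :=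
      Subsingleton.elim _ _
    exact congrArg (fun φ : ℚ →+* IntermediateField.adjoin ℚ s => φ q) this
  let g' : B →ₐ[ℚ] IntermediateField.adjoin ℚ s := { g with commutes' := hc }
  refine trdeg_le_of_injective g' fun x y hxy => hf ?_
  exact congrArg (fun z : IntermediateField.adjoin ℚ s => (z : κ')) hxy

end Pool.Agent.Y734.I.STEP
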