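import Mathlib
import Pool.Agent.Y734.I.STEP.Val

/-!
# Project Y734/I, job STEP: specialisation at a minimal prime (helper664)
-/

set_option autoImplicit false

namespace Pool.Agent.Y734.I.STEP

attribute [-instance] DivisionRing.toRatAlgebra

open MvPolynomial Pool.Agent.Y734.I

/-- a valuation ring which dominates the localisation at a prime ideal of a subalgebra -/
lemma exists_val' {K : Type} [Field K] [Algebra ℚ K] (A : Subalgebra ℚ K) (Q : Ideal A)
    [hQ : Q.IsPrime] :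
    ∃ B : ValuationSubring K, (∀ a ∈ A, a ∈ B) ∧ (∀ a ∈ Q, (a : K) ∈ B.nonunits) ∧
      ∀ a : A, a ∉ Q → (a : K)⁻¹ ∈ B := by
  let e : A.toSubring →+* A := RingHom.codRestrict A.toSubring.subtype A (fun x => x.2)
  have : (Q.comap e).IsPrime := Ideal.comap_isPrime e Q
  obtain ⟨B, h1, h2, h3⟩ := exists_val A.toSubring (Q.comap e)
  refine ⟨B, h1, fun a ha => h2 ⟨a.1, a.2⟩ ?_, fun a ha => h3 ⟨a.1, a.2⟩ ?_⟩
  · exact ha
  · exact ha

section

variable {κ κ' : Type} [Field κ] [Algebra ℚ κ] [Field κ'] [Algebra ℚ κ'] {N r : ℕ}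
  {P : Fin r → Fin (N + 1) → κ} {P' : Fin r → Fin (N + 1) → κ'}

lemma coord_div (s : Sp P P') {k : Fin r} {i : Fin (N + 1)} (h : P' k i ≠ 0) (j : Fin (N + 1)) :
    s.R (P k j / P k i) (P' k j / P' k i) := by
  have h1 := (Sp.R.coord s k j).div (Sp.R.coord s k i) h
  rwa [mul_div_mul_left _ _ (s.c_ne k)] at h1

lemma ev_div (s : Sp P P') {k : Fin r} {i : Fin (N + 1)} (h : P' k i ≠ 0)
    (l : Fin (N + 1) → ℚ) : s.R (ev l (P k) / P k i) (ev l (P' k) / P' k i) := by
  have h1 := (Sp.R.ev s k l).div (Sp.R.coord s k i) h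
  rwa [mul_div_mul_left _ _ (s.c_ne k)] at h1

lemma poly_div (s : Sp P P') {k : Fin r} {i : Fin (N + 1)} (h : P' k i ≠ 0)
    (Φ : MvPolynomial (Fin (N + 1)) ℚ) :
    s.R (aeval (fun j => P k j / P k i) Φ) (aeval (fun j => P' k j / P' k i) Φ) := by
  induction Φ using MvPolynomial.induction_on with
  | C a => rw [aeval_C, aeval_C]; exact Sp.R.rat s a
  | add p q hp hq => rw [map_add, map_add]; exact hp.add hq
  | mul_X p i hp =>
    rw [map_mul, map_mul, aeval_X, aeval_X]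
    exact hp.mul (coord_div s h i)

lemma poly_mem (A : Subalgebra ℚ κ) {x : Fin (N + 1) → κ} (h : ∀ j, x j ∈ A)
    (Φ : MvPolynomial (Fin (N + 1)) ℚ) : aeval x Φ ∈ A := by
  induction Φ using MvPolynomial.induction_on with
  | C a => rw [aeval_C]; exact A.algebraMap_mem a
  | add p q hp hq => rw [map_add]; exact add_mem hp hq
  | mul_X p i hp => rw [map_mul, aeval_X]; exact mul_mem hp (h i)

lemma P_ne' (s : Sp P P') {k : Fin r} {i : Fin (N + 1)} (h : P' k i ≠ 0) : P k i ≠ 0 := by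
  intro h0
  have h1 := Sp.R.coord s k i
  rw [h0, mul_zero] at h1
  exact h (h1.unique (Sp.R.zero s))

lemma aeval_div {d : ℕ} {Φ : MvPolynomial (Fin (N + 1)) ℚ} (h : Φ.IsHomogeneous d)
    (x : Fin (N + 1) → κ) {c : κ} (hc : c ≠ 0) :
    aeval (fun j => x j / c) Φ = 0 ↔ aeval x Φ = 0 := by
  have h1 := aeval_mul h c⁻¹ x
  have h2 : (fun j => x j / c) = fun j => c⁻¹ * x j := by
    funext j
    rw [div_eq_mul_inv, mul_comm]
  rw [h2, h1]
  constructor
  · intro h3
    exact (mul_eq_zero.1 h3).resolve_left (pow_ne_zero _ (inv_ne_zero hc))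
  · intro h3
    rw [h3, mul_zero]

lemma R_nonunit (s : Sp P P') {x : κ} (h : x ∈ s.V.nonunits) : s.R x 0 := by
  have hx : x ∈ s.V := ValuationSubring.nonunits_le h
  refine ⟨hx, ?_⟩
  by_contra h3
  have h4 := s.unit _ h3
  have h5 : (⟨x, hx⟩ : s.V) ∈ IsLocalRing.maximalIdeal s.V :=
    ValuationSubring.coe_mem_nonunits_iff.1 h
  exact h5 h4

end

theorem step (hd : DimqStmt) : StepStmt := by
  classical
  intro κ κ₁ _ _ _ _ N r P P₁ hs l k₀ hl hl1
  obtain ⟨s⟩ := hs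
  have hJ : ∀ k, ∃ j, P₁ k j ≠ 0 := by
    intro k
    obtain ⟨j, hj⟩ := Function.ne_iff.1 (s.ne k)
    exact ⟨j, hj⟩
  choose J hJ using hJ
  have hPJ : ∀ k, P k (J k) ≠ 0 := fun k => P_ne' s (hJ k)
  let u : Fin r × Fin (N + 1) → κ := fun p => P p.1 p.2 / P p.1 (J p.1)
  let A : Subalgebra ℚ κ := Algebra.adjoin ℚ (Set.range u)
  have huA : ∀ k j, P k j / P k (J k) ∈ A := fun k j => Algebra.subset_adjoin ⟨(k, j), rfl⟩
  have hAV : ∀ a ∈ A, a ∈ s.V := by
    have hAR : ∀ a ∈ A, ∃ y, s.R a y := by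
      intro a ha
      induction ha using Algebra.adjoin_induction with
      | mem x hx =>
        obtain ⟨p, rfl⟩ := hx
        exact ⟨_, coord_div s (hJ p.1) p.2⟩
      | algebraMap q => exact ⟨_, Sp.R.rat s q⟩
      | add x y _ _ hx hy =>
        obtain ⟨x', hx⟩ := hx
        obtain ⟨y', hy⟩ := hy
        exact ⟨_, hx.add hy⟩
      | mul x y _ _ hx hy =>
        obtain ⟨x', hx⟩ := hx
        obtain ⟨y', hy⟩ := hy
        exact ⟨_, hx.mul hy⟩
    intro a ha
    obtain ⟨y, hy, _⟩ := hAR a ha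
    exact hy
  let φ : A →+* κ₁ := s.ρ.comp
    (RingHom.codRestrict A.val.toRingHom s.V (fun x => hAV _ x.2))
  have hφ : ∀ a : A, s.R a (φ a) := fun a => ⟨hAV _ a.2, rfl⟩
  have : Algebra.FiniteType ℚ A :=
    A.fg_iff_finiteType.1 (Subalgebra.fg_def.2 ⟨_, Set.finite_range u, rfl⟩)
  have hfA : ev l (P k₀) / P k₀ (J k₀) ∈ A := by
    have h1 : ev l (P k₀) / P k₀ (J k₀) =
        ∑ j, algebraMap ℚ κ (l j) * (P k₀ j / P k₀ (J k₀)) := by
      unfold ev
      rw [Finset.sum_div]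
      exact Finset.sum_congr rfl fun j _ => by ring
    rw [h1]
    exact sum_mem fun j _ => mul_mem (A.algebraMap_mem _) (huA k₀ j)
  let f : A := ⟨ev l (P k₀) / P k₀ (J k₀), hfA⟩
  have hf0 : f ≠ 0 := by
    intro h
    have h1 : ev l (P k₀) / P k₀ (J k₀) = 0 := congrArg Subtype.val h
    exact (div_ne_zero hl (hPJ k₀)) h1
  have hφf : φ f = 0 := by
    have h1 := ev_div s (hJ k₀) l
    rw [hl1, zero_div] at h1
    exact (hφ f).unique h1
  have : (RingHom.ker φ).IsPrime := RingHom.ker_isPrime φ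
  obtain ⟨Q, hQ, hQ1⟩ := Ideal.exists_minimalPrimes_le (I := Ideal.span {f}) (J := RingHom.ker φ)
    (by
      rw [Ideal.span_le, Set.singleton_subset_iff]
      exact hφf)
  have hfQ : f ∈ Q := hQ.1.2 (Ideal.mem_span_singleton_self f)
  have : Q.IsPrime := hQ.1.1
  obtain ⟨V', hV1, hV2, hV3⟩ := exists_val' A Q
  obtain ⟨κ', i1, i2, P', s', hs'⟩ := NV.red_aux κ N r P (fun k => s.P_ne k) V'
    (fun a => hV1 _ (A.algebraMap_mem a))
  have hAV' : ∀ a ∈ A, a ∈ s'.V := fun a ha => by rw [hs']; exact hV1 a ha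
  let φ' : A →+* κ' := s'.ρ.comp
    (RingHom.codRestrict A.val.toRingHom s'.V (fun x => hAV' _ x.2))
  have hφ' : ∀ a : A, s'.R a (φ' a) := fun a => ⟨hAV' _ a.2, rfl⟩
  have hJ' : ∀ k, P' k (J k) ≠ 0 := by
    intro k h0
    apply s'.ne k
    funext j
    have h1 := (hφ' ⟨_, huA k j⟩).mul (Sp.R.coord s' k (J k))
    rw [h0, mul_zero] at h1
    have h2 : P k j / P k (J k) * (s'.c k * P k (J k)) = s'.c k * P k j := by
      field_simp [hPJ k]
    change s'.R (P k j / P k (J k) * (s'.c k * P k (J k))) 0 at h1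
    rw [h2] at h1
    exact (Sp.R.coord s' k j).unique h1
  have hker : ∀ a : A, φ' a = 0 ↔ a ∈ Q := by
    intro a
    constructor
    · intro h0
      by_contra hn
      have h1 : (a : κ)⁻¹ ∈ s'.V := by rw [hs']; exact hV3 a hn
      have ha0 : (a : κ) ≠ 0 := by
        intro h
        apply hn
        have : a = 0 := Subtype.ext h
        rw [this]
        exact Q.zero_mem
      have h2 := (hφ' a).mul (⟨h1, rfl⟩ : s'.R (a : κ)⁻¹ _)
      rw [h0, zero_mul, mul_inv_cancel₀ ha0] at h2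
      exact one_ne_zero ((Sp.R.one s').unique h2)
    · intro ha
      have h1 : (a : κ) ∈ s'.V.nonunits := by rw [hs']; exact hV2 a ha
      exact (hφ' a).unique (R_nonunit s' h1)
  refine ⟨κ', i1, i2, P', ⟨s'⟩, ?_, ?_, ?_⟩
  · have h1 := ev_div s' (hJ' k₀) l
    have h2 : φ' f = 0 := (hker f).2 hfQ
    have h3 := h1.unique (hφ' f)
    rw [h2] at h3
    exact (div_eq_zero_iff.1 h3).resolve_right (hJ' k₀)
  · have h1 : trd (rats P) ≤ Algebra.trdeg ℚ A := by
      refine trd_le_of_sub A ?_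
      rintro y ⟨k, j, j', rfl⟩
      refine ⟨_, huA k j, _, huA k j', ?_⟩
      rw [div_div_div_cancel_right₀ (hPJ k)]
    have h2 := hd A f hf0 Q hQ
    have h3 : Algebra.trdeg ℚ (A ⧸ Q) ≤ trd (rats P') := by
      have hle : ∀ a : A, a ∈ Q → φ' a = 0 := fun a ha => (hker a).2 ha
      refine sub_le_trd (Ideal.Quotient.lift Q φ' hle) ?_ ?_
      · rw [injective_iff_map_eq_zero]
        intro b hb
        obtain ⟨a, rfl⟩ := Ideal.Quotient.mk_surjective b
        rw [Ideal.Quotient.lift_mk] at hb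
        exact Ideal.Quotient.eq_zero_iff_mem.2 ((hker a).1 hb)
      · intro b
        obtain ⟨a, rfl⟩ := Ideal.Quotient.mk_surjective b
        rw [Ideal.Quotient.lift_mk]
        have key : ∀ a ∈ A, ∃ y ∈ IntermediateField.adjoin ℚ (rats P'), s'.R a y := by
          intro a ha
          induction ha using Algebra.adjoin_induction with
          | mem x hx =>
            obtain ⟨p, rfl⟩ := hx
            exact ⟨_, IntermediateField.subset_adjoin ℚ _ ⟨p.1, p.2, J p.1, rfl⟩,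
              coord_div s' (hJ' p.1) p.2⟩
          | algebraMap q => exact ⟨_, algebraMap_mem _ q, Sp.R.rat s' q⟩
          | add x y _ _ hx hy =>
            obtain ⟨x', hx1, hx⟩ := hx
            obtain ⟨y', hy1, hy⟩ := hy
            exact ⟨_, add_mem hx1 hy1, hx.add hy⟩
          | mul x y _ _ hx hy =>
            obtain ⟨x', hx1, hx⟩ := hx
            obtain ⟨y', hy1, hy⟩ := hy
            exact ⟨_, mul_mem hx1 hy1, hx.mul hy⟩
        obtain ⟨y, hy1, hy2⟩ := key a a.2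
        rw [(hφ' a).unique hy2]
        exact hy1
    calc trd (rats P) ≤ Algebra.trdeg ℚ A := h1
      _ ≤ Algebra.trdeg ℚ (A ⧸ Q) + 1 := h2
      _ ≤ trd (rats P') + 1 := by gcongr
  · intro k' d Φ hΦ h0
    have hmem : aeval (fun j => P k' j / P k' (J k')) Φ ∈ A := poly_mem A (huA k') Φ
    have h1 := poly_div s' (hJ' k') Φ
    have h2 := poly_div s (hJ k') Φ
    rw [(aeval_div hΦ (P' k') (hJ' k')).2 h0] at h1
    have h3 : φ' ⟨_, hmem⟩ = 0 := (hφ' ⟨_, hmem⟩).unique h1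
    have h4 : φ ⟨_, hmem⟩ = 0 := hQ1 ((hker _).1 h3)
    have h5 := (hφ ⟨_, hmem⟩).unique h2
    rw [h4] at h5
    exact (aeval_div hΦ (P₁ k') (hJ k')).1 h5.symm

end Pool.Agent.Y734.I.STEP
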